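import Pool.Agent.H31.GZZ.AllH
import Pool.Agent.H23.GZZ.AFZ

/-!
Board gzz (MP_52e316_nt): the hybrid fourth moment without weight and without any condition at
infinity, no hypotheses.
-/

set_option autoImplicit false

namespace Pool.Agent.H31.GZZ

theorem c_HYZ : Pool.Agent.H34.GZZ.T_HYZ := h_HYZ Pool.Agent.H23.GZZ.pf_AFZ

/-- the hybrid fourth moment, no weight, no condition at infinity -/
theorem c_GBZ : Pool.Agent.H34.GZZ.T_GBZ := h_GBZ Pool.Agent.H23.GZZ.pf_AFZ

end Pool.Agent.H31.GZZ
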