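import Pool.Agent.H69.GB.HYA
import Pool.Agent.H34.GZZ.Targets
import Pool.Agent.H34.GHY.GBW

/-!
Board gzz (MP_52e316_nt): one value on the critical line against short sums, no weight, no condition at
infinity.
-/

set_option autoImplicit false

namespace Pool.Agent.H31.GZZ

open MeasureTheory Pool.Agent.H34.GM Pool.Agent.H34.GZ Pool.Agent.H34.GU Pool.Agent.H34.GA
open Pool.Agent.H23.GB Pool.Agent.H69.GA Pool.Agent.H69.GB Pool.Agent.H34.GZZ

theorem min_mul_le {a b x : ℝ} (ha : 0 ≤ a) (hx : 0 ≤ x) (hb : b ≤ x + a) :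
    b * min 1 a ≤ a * (1 + x) := by
  rcases le_total 1 a with h | h
  · rw [min_eq_left h, mul_one]
    nlinarith
  · rw [min_eq_right h]
    calc b * a ≤ (x + a) * a := mul_le_mul_of_nonneg_right hb ha
      _ ≤ a * (1 + x) := by nlinarith

/-- the values on the line against the value at one point of the small disc -/
theorem zeu {C1 c C : ℝ} (hc : 0 < c) (hC : 0 < C) (hC1 : 0 ≤ C1) {n n0 : ℕ} (hn : n ≤ n0)
    {Z : ℂ → ℂ} {z : Fin n → ℂ} {t R : ℝ} (hR : 32 ≤ R)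
    (hline : ∀ u : ℝ, ‖Z (1 / 2 + u * Complex.I)‖ ≤ C1)
    (hup : ∀ s, ‖s - (1 / 2 + t * Complex.I)‖ ≤ R → ‖Z s‖ ≤ C * (R ^ n)⁻¹ * ∏ i, ‖s - z i‖)
    (hlo : ∀ s, ‖s - (1 / 2 + t * Complex.I)‖ ≤ R / 32 →
      c * (R ^ n)⁻¹ * ∏ i, ‖s - z i‖ ≤ ‖Z s‖) {s : ℂ}
    (hs : ‖s - (1 / 2 + t * Complex.I)‖ ≤ 1) (u : ℝ) :
    ‖Z (1 / 2 + u * Complex.I)‖ * ∏ i, min 1 ‖s - z i‖ ≤
      (C / c * 2 ^ n0 + C1 / c) * ‖Z s‖ * (1 + |u - s.im|) ^ n0 := by
  have hR0 : 0 < R := by linarith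
  have hRn : 0 < R ^ n := by positivity
  obtain ⟨y, hy⟩ : ∃ y : ℂ, y = 1 / 2 + u * Complex.I := ⟨_, rfl⟩
  obtain ⟨D2, hD2⟩ : ∃ D2 : ℝ, D2 = ∏ i, ‖s - z i‖ := ⟨_, rfl⟩
  have hD20 : 0 ≤ D2 := by
    rw [hD2]
    exact Finset.prod_nonneg fun _ _ => norm_nonneg _
  have hlow := hlo s (by linarith)
  rw [← hD2] at hlow
  have hD2Z : D2 ≤ R ^ n * (‖Z s‖ / c) := by
    have h1 : c * (R ^ n)⁻¹ * D2 = c / R ^ n * D2 := by
      rw [div_eq_mul_inv]
    rw [h1, div_mul_eq_mul_div, div_le_iff₀ hRn] at hlow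
    rw [mul_div_assoc', le_div_iff₀ hc]
    linarith
  have hP1 : ∏ i, min 1 ‖s - z i‖ ≤ D2 := by
    rw [hD2]
    exact Finset.prod_le_prod (fun _ _ => le_min zero_le_one (norm_nonneg _))
      (fun _ _ => min_le_right _ _)
  have hu0 : 0 ≤ |u - s.im| := abs_nonneg _
  have hu1 : 1 ≤ 1 + |u - s.im| := by linarith
  have hpn : (1 + |u - s.im|) ^ n ≤ (1 + |u - s.im|) ^ n0 := pow_le_pow_right₀ hu1 hn
  have hre : |s.re - 1 / 2| ≤ 1 := by
    have h1 := Complex.abs_re_le_norm (s - (1 / 2 + t * Complex.I))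
    have h2 : (s - (1 / 2 + t * Complex.I)).re = s.re - 1 / 2 := by simp
    rw [h2] at h1
    linarith
  have him : |s.im - t| ≤ 1 := by
    have h1 := Complex.abs_im_le_norm (s - (1 / 2 + t * Complex.I))
    have h2 : (s - (1 / 2 + t * Complex.I)).im = s.im - t := by simp
    rw [h2] at h1
    linarith
  have hys : ‖y - s‖ ≤ 1 + |u - s.im| := by
    refine (Complex.norm_le_abs_re_add_abs_im _).trans ?_
    have h1 : (y - s).re = -(s.re - 1 / 2) := by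
      rw [hy]
      simp
    have h2 : (y - s).im = u - s.im := by
      rw [hy]
      simp
    rw [h1, h2, abs_neg]
    linarith
  have hZ0 : 0 ≤ ‖Z s‖ := norm_nonneg _
  rcases le_total ‖y - (1 / 2 + t * Complex.I)‖ R with hcase | hcase
  · -- inside the disc
    have h1 := hup y hcase
    have h2 : (∏ i, ‖y - z i‖) * ∏ i, min 1 ‖s - z i‖ ≤ D2 * (1 + ‖y - s‖) ^ n := by
      rw [← Finset.prod_mul_distrib, hD2]
      have h3 : (∏ i, ‖s - z i‖) * (1 + ‖y - s‖) ^ n = ∏ i, (‖s - z i‖ * (1 + ‖y - s‖)) := by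
        rw [Finset.prod_mul_distrib, Finset.prod_const, Finset.card_univ, Fintype.card_fin]
      rw [h3]
      refine Finset.prod_le_prod (fun _ _ => mul_nonneg (norm_nonneg _)
        (le_min zero_le_one (norm_nonneg _))) (fun i _ => ?_)
      refine min_mul_le (norm_nonneg _) (norm_nonneg _) ?_
      have h4 := norm_add_le (y - s) (s - z i)
      rwa [show y - s + (s - z i) = y - z i by ring] at h4
    have h5 : (1 + ‖y - s‖) ^ n ≤ 2 ^ n0 * (1 + |u - s.im|) ^ n0 := by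
      calc (1 + ‖y - s‖) ^ n ≤ (2 * (1 + |u - s.im|)) ^ n :=
            pow_le_pow_left₀ (by positivity) (by linarith) _
        _ = 2 ^ n * (1 + |u - s.im|) ^ n := mul_pow _ _ _
        _ ≤ 2 ^ n0 * (1 + |u - s.im|) ^ n0 :=
            mul_le_mul (pow_le_pow_right₀ (by norm_num) hn) hpn (by positivity) (by positivity)
    have hP0 : 0 ≤ ∏ i, min 1 ‖s - z i‖ :=
      Finset.prod_nonneg fun _ _ => le_min zero_le_one (norm_nonneg _)
    rw [← hy]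
    calc ‖Z y‖ * ∏ i, min 1 ‖s - z i‖ ≤
        (C * (R ^ n)⁻¹ * ∏ i, ‖y - z i‖) * ∏ i, min 1 ‖s - z i‖ :=
          mul_le_mul_of_nonneg_right h1 hP0
      _ = C * (R ^ n)⁻¹ * ((∏ i, ‖y - z i‖) * ∏ i, min 1 ‖s - z i‖) := by ring
      _ ≤ C * (R ^ n)⁻¹ * (D2 * (1 + ‖y - s‖) ^ n) :=
          mul_le_mul_of_nonneg_left h2 (by positivity)
      _ ≤ C * (R ^ n)⁻¹ * ((R ^ n * (‖Z s‖ / c)) * (2 ^ n0 * (1 + |u - s.im|) ^ n0)) := by
          refine mul_le_mul_of_nonneg_left ?_ (by positivity)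
          exact mul_le_mul hD2Z h5 (by positivity) (by positivity)
      _ = C / c * 2 ^ n0 * ‖Z s‖ * (1 + |u - s.im|) ^ n0 := by
          field_simp
      _ ≤ _ := by
          refine mul_le_mul_of_nonneg_right (mul_le_mul_of_nonneg_right ?_ hZ0) (by positivity)
          have : 0 ≤ C1 / c := by positivity
          linarith
  · -- outside the disc
    have h1 := hline u
    have h2 : R ≤ 1 + |u - s.im| := by
      have h3 : y - (1 / 2 + t * Complex.I) = ((u - t : ℝ) : ℂ) * Complex.I := by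
        rw [hy]
        push_cast
        ring
      rw [h3, norm_mul, Complex.norm_I, mul_one, Complex.norm_real, Real.norm_eq_abs] at hcase
      have h4 := abs_add_le (u - s.im) (s.im - t)
      rw [sub_add_sub_cancel] at h4
      linarith
    have h5 : R ^ n ≤ (1 + |u - s.im|) ^ n0 :=
      (pow_le_pow_left₀ hR0.le h2 n).trans hpn
    calc ‖Z (1 / 2 + u * Complex.I)‖ * ∏ i, min 1 ‖s - z i‖ ≤ C1 * D2 :=
          mul_le_mul h1 hP1 (Finset.prod_nonneg fun _ _ => le_min zero_le_one (norm_nonneg _)) hC1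
      _ ≤ C1 * ((1 + |u - s.im|) ^ n0 * (‖Z s‖ / c)) := by
          refine mul_le_mul_of_nonneg_left (hD2Z.trans ?_) hC1
          exact mul_le_mul_of_nonneg_right h5 (by positivity)
      _ = C1 / c * ‖Z s‖ * (1 + |u - s.im|) ^ n0 := by
          field_simp
      _ ≤ _ := by
          refine mul_le_mul_of_nonneg_right (mul_le_mul_of_nonneg_right ?_ hZ0) (by positivity)
          have : 0 ≤ C / c * 2 ^ n0 := by positivity
          linarith

/-- moving the centre of the kernel -/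
theorem ker_shift {f : ℝ → ℝ} (hf : Continuous f) (h0 : ∀ x, 0 ≤ f x) {b : ℝ}
    (hb : ∀ x, f x ≤ b) {t v : ℝ} (hv : |v - t| ≤ 1) :
    ∫ τ : ℝ, ((1 + |τ|) ^ 4)⁻¹ * f (v + τ) ≤ 16 * ∫ τ : ℝ, ((1 + |τ|) ^ 4)⁻¹ * f (t + τ) := by
  have hker : Integrable (fun τ : ℝ => ((1 + |τ|) ^ 4)⁻¹) := by
    have h1 : Integrable (fun τ : ℝ => (1 + ‖τ‖) ^ (-(4 : ℝ))) := integrable_one_add_norm (by simp)
    refine h1.congr (Filter.Eventually.of_forall fun τ => ?_)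
    simp only
    rw [Real.norm_eq_abs, Real.rpow_neg (by positivity)]
    norm_cast
  have hint : ∀ a : ℝ, Integrable (fun τ : ℝ => ((1 + |τ|) ^ 4)⁻¹ * f (a + τ)) := by
    intro a
    refine (hker.mul_const b).mono' ?_ (Filter.Eventually.of_forall fun τ => ?_)
    · refine (Continuous.mul ?_ (hf.comp (by fun_prop))).aestronglyMeasurable
      exact Continuous.inv₀ (by fun_prop) (fun τ => by positivity)
    · rw [Real.norm_eq_abs, abs_of_nonneg (mul_nonneg (by positivity) (h0 _))]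
      exact mul_le_mul_of_nonneg_left (hb _) (by positivity)
  have e1 : ∫ τ : ℝ, ((1 + |τ|) ^ 4)⁻¹ * f (v + τ) =
      ∫ τ : ℝ, ((1 + |τ + (t - v)|) ^ 4)⁻¹ * f (t + τ) := by
    have h1 := integral_add_right_eq_self (μ := volume)
      (fun τ : ℝ => ((1 + |τ|) ^ 4)⁻¹ * f (v + τ)) (t - v)
    rw [← h1]
    refine integral_congr_ae (Filter.Eventually.of_forall fun τ => ?_)
    simp only
    rw [show v + (τ + (t - v)) = t + τ by ring]
  rw [e1, ← integral_const_mul]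
  refine integral_mono_of_nonneg (Filter.Eventually.of_forall fun τ =>
    mul_nonneg (by positivity) (h0 _)) ((hint t).const_mul 16)
    (Filter.Eventually.of_forall fun τ => ?_)
  simp only
  rw [← mul_assoc]
  refine mul_le_mul_of_nonneg_right ?_ (h0 _)
  have h2 : 1 + |τ| ≤ 2 * (1 + |τ + (t - v)|) := by
    have h3 := abs_sub (τ + (t - v)) (t - v)
    rw [add_sub_cancel_right] at h3
    have h4 : |t - v| ≤ 1 := by
      rw [abs_sub_comm]
      exact hv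
    have := abs_nonneg (τ + (t - v))
    linarith
  have h5 : (1 + |τ|) ^ 4 ≤ 16 * (1 + |τ + (t - v)|) ^ 4 := by
    calc (1 + |τ|) ^ 4 ≤ (2 * (1 + |τ + (t - v)|)) ^ 4 :=
          pow_le_pow_left₀ (by positivity) h2 4
      _ = 16 * (1 + |τ + (t - v)|) ^ 4 := by ring
  rw [inv_le_iff_one_le_mul₀ (by positivity)]
  have h6 : 16 * ((1 + |τ|) ^ 4)⁻¹ * (1 + |τ + (t - v)|) ^ 4 =
      (16 * (1 + |τ + (t - v)|) ^ 4) / (1 + |τ|) ^ 4 := by
    field_simp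
  rw [h6, one_le_div (by positivity)]
  exact h5

/-- the last step -/
theorem hyz_fin {x Z Pr CA E CZ C3 c dm D0 I : ℝ} (hx : 0 ≤ x) (hPr : 0 < Pr) (hCE : 0 ≤ CA * E)
    (hCZ : 0 ≤ CZ) (hI : 0 ≤ I) (hc : 0 < c) (hdm : 0 < dm) (hC3 : 0 ≤ C3)
    (hlow : c * dm * Pr ≤ Z) (hD : D0 ≤ dm)
    (hA : x * Z ≤ CA * E * (CZ * D0 + C3 * Z / Pr * I)) :
    x * Pr ≤ CA * E * (CZ / c + C3 * I) := by
  have hZ : 0 < Z := lt_of_lt_of_le (by positivity) hlow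
  have h1 : x * Pr = x * Z * (Pr / Z) := by
    field_simp
  rw [h1]
  have h2 : dm * (Pr / Z) ≤ 1 / c := by
    rw [mul_div_assoc', div_le_div_iff₀ hZ hc]
    linarith
  calc x * Z * (Pr / Z) ≤ CA * E * (CZ * D0 + C3 * Z / Pr * I) * (Pr / Z) :=
        mul_le_mul_of_nonneg_right hA (by positivity)
    _ ≤ CA * E * (CZ * dm + C3 * Z / Pr * I) * (Pr / Z) := by
        refine mul_le_mul_of_nonneg_right (mul_le_mul_of_nonneg_left ?_ hCE) (by positivity)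
        exact add_le_add (mul_le_mul_of_nonneg_left hD hCZ) le_rfl
    _ = CA * E * (CZ * (dm * (Pr / Z)) + C3 * I) := by
        field_simp
    _ ≤ _ := by
        refine mul_le_mul_of_nonneg_left ?_ hCE
        have := mul_le_mul_of_nonneg_left h2 hCZ
        rw [mul_one_div] at this
        linarith

theorem pf_HYZ (hPRF : T_PRF) (hFR : T_FR1) (hAFZ : T_AFZ) (hTAY : Pool.Agent.H34.GZZ.T_TAY) (hZER : T_ZER)
    (hCIZ : T_CIZ) (hMED : T_MED) (hZPE : T_ZPE)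
    (hLMB : Pool.Agent.H23.GB.T_LMB) (hZPB : T_ZPB) (hFEC : T_FEC)
    (hMLZ : T_MLZ) (hENA : T_ENA) (hCNR : T_CNR) (hCFA : T_CFA)
    (hCFB : Pool.Agent.H34.GA.T_CFB) (hSMA : Pool.Agent.H34.GA.T_SMA)
    (hPHB : T_PHB) : T_HYZ := by
  obtain ⟨χ, hχ⟩ := hPRF
  intro m hm ε hε
  have hmR : (1 : ℝ) ≤ m := by exact_mod_cast hm
  obtain ⟨B, hB, hLam⟩ := hLMB m hm
  obtain ⟨r0, hr0, hZ0⟩ := hZPB m χ 0 hm hχ
  obtain ⟨CN, hCN, hNR⟩ := hCNR m hm
  obtain ⟨cT, ct, C1, hcT, hct, hC1, hT⟩ := hTAY m χ hm hχ CN hCN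
  obtain ⟨n0, cz, Cz, hcz, hCz, hzer⟩ := hZER C1 ct hct
  obtain ⟨e, he, he1, hee, hem⟩ : ∃ e : ℝ, 0 < e ∧ e ≤ 1 ∧ e ≤ ε ∧ (m + 3) * e ≤ ε := by
    refine ⟨min 1 (ε / (m + 3)), lt_min one_pos (by positivity), min_le_left _ _, ?_, ?_⟩
    · refine (min_le_right _ _).trans ?_
      rw [div_le_iff₀ (by positivity)]
      nlinarith
    · have h1 : min 1 (ε / (m + 3)) ≤ ε / (m + 3) := min_le_right _ _
      rw [le_div_iff₀ (by positivity)] at h1
      linarith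
  obtain ⟨K, CA, hCA, hA⟩ := hAFZ m n0 n0 hm r0 B e hr0 hB he he1
  obtain ⟨CI, hCI, hI⟩ := hCIZ n0 e he
  obtain ⟨CZ, hCZ, hZ⟩ := hZPB m χ K hm hχ
  obtain ⟨CP, cP, AP, hCP, hcP, hP⟩ := hPHB χ hχ m hm 1 0 one_pos
  have hCN0 : 0 < CN := by linarith
  have hCZ0 : 0 < CZ := by linarith
  obtain ⟨c, hc, hc2', hc32, hcT4⟩ : ∃ c : ℝ, 0 < c ∧ c ≤ 1 / 2 ∧ c ≤ 1 / 32 ∧ c * 4 ≤ cT := by
    refine ⟨min (1 / 32) (cT / 4), lt_min (by norm_num) (by positivity),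
      (min_le_left _ _).trans (by norm_num), min_le_left _ _, ?_⟩
    have h1 : min (1 / 32) (cT / 4) ≤ cT / 4 := min_le_right _ _
    linarith
  obtain ⟨C3, hC3⟩ : ∃ C3 : ℝ, C3 = Cz / cz * 2 ^ n0 + CZ / cz := ⟨_, rfl⟩
  have hC30 : 0 ≤ C3 := by
    rw [hC3]
    positivity
  obtain ⟨CX, hCX⟩ : ∃ CX : ℝ, CX = CA * ((c⁻¹ ^ m) ^ (1 / 2 : ℝ) * c ^ (-ε)) := ⟨_, rfl⟩
  obtain ⟨CY, hCY⟩ : ∃ CY : ℝ, CY = CI * (CA * c ^ (-ε) * (CZ / cz + C3 * 16)) := ⟨_, rfl⟩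
  have hCX0 : 0 < CX := by
    rw [hCX]
    positivity
  have hCY0 : 0 < CY := by
    rw [hCY]
    have : 0 < CZ / cz := by positivity
    positivity
  refine ⟨CX + CY, by positivity, ?_⟩
  intro N _ T D hS F lam P hF hn hLip hP1 L hLL t ht X hX
  have hNZ : NZ F := spx_nz hS (by rw [hn]; exact one_ne_zero)
  have hP0 : 0 < P := by linarith
  have hN1 : (1 : ℝ) ≤ N := by
    have := hS.two_le
    exact_mod_cast (by omega : 1 ≤ N)
  have hN0 : (0 : ℝ) < N := by linarith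
  obtain ⟨H, xv, hFr⟩ := hFR m N hm hS.two_le
  have hc1 : Cof m (c1 D F) 1 := by
    have h1 := hCFA m N T D hS F lam hF.toHecA
    rw [hn] at h1
    exact h1
  have hc2 : Cof m (c2 D H xv F) 1 := by
    have h1 := hCFB m N T D hS H xv hFr F lam hF.toHecA
    rw [hn] at h1
    exact h1
  have hlam := hLam N T D hS F lam hF.toHecA hNZ
  obtain ⟨δ, hδd⟩ : ∃ δ : ℝ, δ = c / P := ⟨_, rfl⟩
  have hδ0 : 0 < δ := by
    rw [hδd]
    positivity
  have hδP : δ * P = c := by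
    rw [hδd]
    field_simp
  have hδc : δ ≤ c := by
    rw [hδd]
    exact div_le_self hc.le hP1
  have hδ2 : δ ≤ 1 / 2 := hδc.trans hc2'
  have hδ1 : δ ≤ 1 := by linarith
  have hR : 32 ≤ δ⁻¹ := by
    rw [le_inv_comm₀ (by norm_num) hδ0]
    have := hδc.trans hc32
    linarith
  obtain ⟨hΦ, hΦ0, hΦW, -⟩ := hP δ hδ0 hδ2
  have hZ1 := hZ δ hδ0 hδ2 (c1 D F) hc1
  have hZ2 := hZ δ hδ0 hδ2 (c2 D H xv F) hc2
  have hZ3 := (hZ0 δ hδ0 hδ2 (c1 D F) hc1).2.2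
  have hZK : ∀ K : ℕ, ∃ C : ℝ, ∀ r : ℝ, 0 < r →
      ‖uu (Pool.Agent.H34.GA.cf (dD^[m] (bi m χ δ))) (c2 D H xv F) r‖ ≤ C * min 1 (r ^ K) := by
    intro K'
    obtain ⟨CK, hCK, hK⟩ := hZPB m χ K' hm hχ
    refine ⟨CK * δ⁻¹ ^ K', fun r hr => ?_⟩
    exact hya_min (by linarith) hr hδ0 (by linarith) ((hK δ hδ0 hδ2 _ hc2).1 r hr)
  obtain ⟨Φ, hΦd⟩ : ∃ Φ : Mat m → ℂ, Φ = dD^[m] (bi m χ δ) := ⟨_, rfl⟩
  -- the disc around `1/2 + it`
  have hs0 : ‖(1 / 2 + t * Complex.I : ℂ)‖ ≤ 1 / 2 + |t| := by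
    refine (norm_add_le _ _).trans (le_of_eq ?_)
    rw [norm_mul, Complex.norm_I, mul_one, Complex.norm_real, Real.norm_eq_abs]
    norm_num
  obtain ⟨hT1, hT2⟩ := hT (c1 D F) P (1 / 2 + t * Complex.I) δ hc1.meas
    (fun z hz => hc1.bd z hz) hP0.le
    (fun w hw => hNR N T D hS F lam hF.toHecA hn P hLip hP0.le w hw) hδ0 (by
      calc δ * (1 + P + ‖(1 / 2 + t * Complex.I : ℂ)‖) ≤ δ * (P * 4) := by
            refine mul_le_mul_of_nonneg_left ?_ hδ0.le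
            linarith
        _ = δ * P * 4 := by ring
        _ ≤ cT := by
            rw [hδP]
            exact hcT4)
  rw [← hΦd] at hΦ hΦ0 hΦW hZ1 hZ2 hZK hT1 hT2
  have hZ4 : ∀ r : ℝ, 0 < r → uu Φ (c1 D F) r ≠ 0 → r0⁻¹ ≤ r ∧ r ≤ r0 := by
    rw [hΦd]
    exact hZ3
  have hAd : Adm F (Pool.Agent.H34.GA.cf Φ) := Or.inr hΦ0
  have hWc := hSMA m N T D hS F lam hF hNZ Φ hΦ hAd
  obtain ⟨L', hL', hLW'⟩ := hENA m N T D hS F lam hF hNZ
  have hLe : L = L' := isl_uniq hLL hL'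
  have hLW : ∀ s : ℂ, LmA m (uu Φ (c1 D F)) lam s = L s * MelA m (uu Φ (c1 D F)) s := by
    rw [hLe]
    exact hLW' _ hWc
  have hne : ∃ s : ℂ, L s ≠ 0 := isl_ne hLL (lam_one hS hF.toHecA hNZ)
  have hFE := hFEC m N T D hS H xv hFr F lam hF hNZ Φ hΦ hAd
  obtain ⟨-, hcψ, hMel⟩ := hMLZ m hm (c1 D F) 1 hc1 Φ hΦ.toTg
  have hcψ' : ContinuousOn (uu (Pool.Agent.H34.GA.cf Φ) (c2 D H xv F)) (Set.Ioi 0) :=
    (hΦW _ hc2).2.diff.continuousOn
  -- the zeros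
  obtain ⟨Z, hZd⟩ : ∃ Z : ℂ → ℂ, Z = MelA m (uu Φ (c1 D F)) := ⟨_, rfl⟩
  have hZZ : ∀ s, Z s = ZA Φ (c1 D F) s := fun s => by rw [hZd, hMel]
  have hZdiff : Differentiable ℂ Z := by
    rw [hZd]
    exact hMED m r0 _ hm hr0 hcψ hZ4
  obtain ⟨n, z, hn0, -, hup, hlo⟩ := hzer Z (1 / 2 + t * Complex.I) δ⁻¹ hZdiff (by positivity)
    (fun s hs => by rw [hZZ]; exact hT1 s hs)
    (by
      obtain ⟨s1, h1, h2⟩ := hT2
      exact ⟨s1, h1, by rw [hZZ]; exact h2⟩)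
  have hline : ∀ u : ℝ, ‖Z (1 / 2 + u * Complex.I)‖ ≤ CZ := by
    intro u
    rw [hZZ]
    exact hZ1.2.1 u
  have hX' : CA * ((N : ℝ) * δ⁻¹ ^ m) ^ (1 / 2 : ℝ) * ((N : ℝ) / δ) ^ e ≤ X := by
    refine le_trans ?_ hX
    have hND : 1 ≤ (N : ℝ) / δ := by
      rw [one_le_div hδ0]
      linarith
    have h6 : ((N : ℝ) / δ) ^ e ≤ ((N : ℝ) / δ) ^ ε := Real.rpow_le_rpow_of_exponent_le hND hee
    refine (mul_le_mul_of_nonneg_left h6 (by positivity)).trans ?_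
    rw [hδd, hya_pow hN0 hP0 hc, hya_pow2 m hN0 hP0 hc]
    have h7 : CA * ((c⁻¹ ^ m) ^ (1 / 2 : ℝ) * ((N : ℝ) * P ^ m) ^ (1 / 2 : ℝ)) *
        (c ^ (-ε) * ((N : ℝ) * P) ^ ε) =
        CX * ((N : ℝ) * P ^ m) ^ (1 / 2 : ℝ) * ((N : ℝ) * P) ^ ε := by
      rw [hCX]
      ring
    rw [h7]
    refine mul_le_mul_of_nonneg_right (mul_le_mul_of_nonneg_right ?_ ?_) ?_
    · linarith
    · positivity
    · positivity
  obtain ⟨I, hId⟩ : ∃ I : ℝ → ℝ, I = fun v => ∫ τ : ℝ, ((1 + |τ|) ^ 4)⁻¹ *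
    ‖SX lam X (1 / 2 + ((v + τ : ℝ) : ℂ) * Complex.I)‖ := ⟨_, rfl⟩
  have hI0 : ∀ v, 0 ≤ I v := by
    intro v
    rw [hId]
    exact integral_nonneg fun τ => mul_nonneg (by positivity) (norm_nonneg _)
  obtain ⟨E, hE⟩ : ∃ E : ℝ, E = ((N : ℝ) / δ) ^ ((m + 3) * e) := ⟨_, rfl⟩
  have hE0 : 0 ≤ E := by
    rw [hE]
    positivity
  have hIv : ∀ v : ℝ, |v - t| ≤ 1 → I v ≤ 16 * I t := by
    intro v hv
    rw [hId]
    obtain ⟨b, hb⟩ := Pool.Agent.H34.GHY.sd_bdd lam X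
    exact ker_shift (f := fun x : ℝ => ‖SX lam X (1 / 2 + (x : ℂ) * Complex.I)‖)
      (by
        simp only [Pool.Agent.H34.GHY.sx_sd]
        exact (Pool.Agent.H34.GHY.sd_cont lam X).norm)
      (fun x => norm_nonneg _) (b := b) (fun x => by
        rw [Pool.Agent.H34.GHY.sx_sd]
        exact hb x) hv
  -- one point of the disc
  have hpt : ∀ s : ℂ, ‖s - (1 / 2 + t * Complex.I)‖ ≤ e → ‖L s‖ * ∏ i, min 1 ‖s - z i‖ ≤
      CA * E * (CZ / cz + C3 * 16 * I t) := by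
    intro s hs
    have hPr0 : 0 ≤ ∏ i, min 1 ‖s - z i‖ :=
      Finset.prod_nonneg fun _ _ => le_min zero_le_one (norm_nonneg _)
    rcases hPr0.eq_or_lt with h0 | hPr
    · rw [← h0, mul_zero]
      have := hI0 t
      positivity
    have hs1 : ‖s - (1 / 2 + t * Complex.I)‖ ≤ 1 := hs.trans he1
    have hre : |s.re - 1 / 2| ≤ e := by
      have h1 := Complex.abs_re_le_norm (s - (1 / 2 + t * Complex.I))
      have h2 : (s - (1 / 2 + t * Complex.I)).re = s.re - 1 / 2 := by simp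
      rw [h2] at h1
      linarith
    have him : |s.im - t| ≤ 1 := by
      have h1 := Complex.abs_im_le_norm (s - (1 / 2 + t * Complex.I))
      have h2 : (s - (1 / 2 + t * Complex.I)).im = s.im - t := by simp
      rw [h2] at h1
      linarith
    have hzu := zeu hcz hCz hCZ0.le hn0 hR hline hup hlo hs1
    rw [← hC3] at hzu
    -- the lower bound
    have hlow : cz * (δ ^ n0) * ∏ i, min 1 ‖s - z i‖ ≤ ‖Z s‖ := by
      refine le_trans ?_ (hlo s (by linarith))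
      rw [inv_pow, inv_inv]
      refine mul_le_mul ?_ ?_ hPr0 (by positivity)
      · exact mul_le_mul_of_nonneg_left (pow_le_pow_of_le_one hδ0.le hδ1 hn0) hcz.le
      · exact Finset.prod_le_prod (fun _ _ => le_min zero_le_one (norm_nonneg _))
          (fun _ _ => min_le_right _ _)
    have hMel1 : ∀ u : ℝ, ‖MelA m (uu Φ (c1 D F)) (1 / 2 + u * Complex.I)‖ ≤
        C3 * ‖Z s‖ / (∏ i, min 1 ‖s - z i‖) * (1 + |u - s.im|) ^ n0 := by
      intro u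
      rw [← hZd, div_mul_eq_mul_div, le_div_iff₀ hPr]
      exact hzu u
    have hMel2 : ∀ u : ℝ, ‖MelA m (uu (Pool.Agent.H34.GA.cf Φ) (c2 D H xv F))
        (1 / 2 + u * Complex.I)‖ ≤
        C3 * ‖Z s‖ / (∏ i, min 1 ‖s - z i‖) * (1 + |u - s.im|) ^ n0 := by
      intro u
      rw [hZPE m N B r0 lam (uu Φ (c1 D F)) (uu (Pool.Agent.H34.GA.cf Φ) (c2 D H xv F)) L hm hN1
        hr0 hcψ hcψ' hZ4 hZK hlam hFE hLL hLW hne u]
      exact hMel1 u
    have hfin := hA N δ CZ (C3 * ‖Z s‖ / (∏ i, min 1 ‖s - z i‖)) lam (uu Φ (c1 D F))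
      (uu (Pool.Agent.H34.GA.cf Φ) (c2 D H xv F)) hN1 hδ0 hδ2 hCZ0.le (by positivity) hcψ hcψ' hZ4
      hZ2.1 hlam hFE s.im (s.re - 1 / 2) hre hMel1 hMel2 X hX'
    have hse : (((1 / 2 + (s.re - 1 / 2) : ℝ) : ℂ) + s.im * Complex.I) = s := by
      rw [add_sub_cancel]
      exact Complex.re_add_im s
    rw [hse, hLW, norm_mul, ← hZd, ← hE] at hfin
    have hfin2 : ‖L s‖ * ‖Z s‖ ≤ CA * E * (CZ * (δ / N) ^ n0 +
        C3 * ‖Z s‖ / (∏ i, min 1 ‖s - z i‖) * I s.im) := by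
      rw [hId]
      exact hfin
    have hdN : (δ / N) ^ n0 ≤ δ ^ n0 :=
      pow_le_pow_left₀ (by positivity) (div_le_self hδ0.le hN1) _
    have h8 := hyz_fin (norm_nonneg (L s)) hPr (by positivity) hCZ0.le (hI0 s.im) hcz
      (by positivity) hC30 hlow hdN hfin2
    refine h8.trans (mul_le_mul_of_nonneg_left ?_ (by positivity))
    have h9 := mul_le_mul_of_nonneg_left (hIv s.im him) hC30
    linarith
  have hres := hI n L z (1 / 2 + t * Complex.I) _ hn0 hLL.1 hpt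
  refine hres.trans ?_
  have hE1 : E ≤ c ^ (-ε) * ((N : ℝ) * P) ^ ε := by
    have hND : 1 ≤ (N : ℝ) / δ := by
      rw [one_le_div hδ0]
      linarith
    rw [hE]
    refine (Real.rpow_le_rpow_of_exponent_le hND hem).trans ?_
    rw [hδd, hya_pow hN0 hP0 hc]
  have hI1 := hI0 t
  have h10 : CZ / cz + C3 * 16 * I t ≤ (CZ / cz + C3 * 16) * (1 + I t) := by
    have h11 : 0 ≤ CZ / cz := by positivity
    nlinarith [mul_nonneg h11 hI1, mul_nonneg (mul_nonneg hC30 (by norm_num : (0:ℝ) ≤ 16)) hI1]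
  calc CI * (CA * E * (CZ / cz + C3 * 16 * I t)) ≤
      CI * (CA * (c ^ (-ε) * ((N : ℝ) * P) ^ ε) * ((CZ / cz + C3 * 16) * (1 + I t))) := by
        refine mul_le_mul_of_nonneg_left ?_ hCI.le
        refine mul_le_mul (mul_le_mul_of_nonneg_left hE1 hCA.le) h10 (by positivity) (by positivity)
    _ = CY * ((N : ℝ) * P) ^ ε * (1 + I t) := by
        rw [hCY]
        ring
    _ ≤ (CX + CY) * ((N : ℝ) * P) ^ ε * (1 + I t) := by
        refine mul_le_mul_of_nonneg_right (mul_le_mul_of_nonneg_right ?_ (by positivity))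
          (by linarith)
        linarith
    _ = _ := by rw [hId]

end Pool.Agent.H31.GZZ
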