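import Pool.Agent.H23.GHY.All
import Pool.Agent.H31.GZZ.HYZ
import Pool.Agent.H34.GZZ.GBZ
import Pool.Agent.H16.GZZ.TAY
import Pool.Agent.H55.GZZ.CIZ
import Pool.Agent.H84.GZZ.MED

/-!
Board gzz (MP_52e316_nt): everything composed; the only hypothesis is the approximate functional
equation near the critical line.
-/

set_option autoImplicit false

namespace Pool.Agent.H31.GZZ

open Pool.Agent.H23.GHY.All in
theorem h_HYZ (h : Pool.Agent.H34.GZZ.T_AFZ) : Pool.Agent.H34.GZZ.T_HYZ :=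
  pf_HYZ Pool.Agent.H34.GM.pf_PRF Pool.Agent.H34.GU.b_FR1 h Pool.Agent.H16.GZZ.pf_TAY
    Pool.Agent.H34.GZZ.pf_ZER Pool.Agent.H55.GZZ.pf_CIZ Pool.Agent.H84.GZZ.pf_MED d_ZPE d_LMB d_ZPB
    d_FEC Pool.Agent.H23.GA.All.c_MLZ Pool.Agent.H23.GA.All.c_ENA Pool.Agent.H23.GA.All.c_CNR
    Pool.Agent.H23.GA.All.c_CFA Pool.Agent.H23.GA.All.c_CFB Pool.Agent.H23.GA.All.c_SMA
    Pool.Agent.H23.GA.All.c_PHB

open Pool.Agent.H23.GHY.All in
/-- the hybrid fourth moment, no weight, no condition at infinity -/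
theorem h_GBZ (h : Pool.Agent.H34.GZZ.T_AFZ) : Pool.Agent.H34.GZZ.T_GBZ :=
  Pool.Agent.H34.GZZ.pf_GBZ Pool.Agent.H23.GA.All.c_ENA (h_HYZ h) c_DYD c_CRD

end Pool.Agent.H31.GZZ
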